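import Pool.Agent.H72.SofAct

set_option autoImplicit false

namespace Pool.Agent.Results.MP_743583_al.FreeProduct

open H72.SofAct

/-- The free product of sofic actions on one set is sofic. -/
theorem result (I X : Type) (G : I → Type) [∀ i, Group (G i)]
    (α : ∀ i, G i →* Equiv.Perm X) (h : ∀ i, IsSofic (α i)) :
    IsSofic (Monoid.CoprodI.lift α) :=
  free_product h

end Pool.Agent.Results.MP_743583_al.FreeProduct
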